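import Pool.Agent.Q147.LG.CInst
import Pool.Agent.Q147.SP.FewS

/-!
# Relations between independent logarithms: the number of monomials, not the degree

Let `W` be a space of dimension `N` over the field `ℚ̄` of algebraic numbers which consists of linear
forms in `1` and logarithms of algebraic numbers, with algebraic coefficients.  We consider the
tuples `y` in `W ^ m` (`m ≥ 2`) for which `1, y_1, ..., y_m` are linearly independent over `ℚ̄`, but
`y_1, ..., y_m` satisfy a nontrivial polynomial relation over `ℚ̄`.

1. If the relation has at most `k` monomials and degree at most `D`, then the tuples lie in an algebraic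
   subset of dimension at most `(m - 2) N + m (m - 1) + k - 1`, for pairs `k + 1`: the
   dimension depends neither on the degree `D` nor (for pairs) on `N`.
2. More generally, for relations with exponents in an ARBITRARY finite set `A` (the earlier results
   are about sets which are closed downwards, for instance all exponents of degree at most `D`) the
   dimension is at most
   `(m - 2) N + max (m (m h - 1) + ⌊(|A + B| - |B|) / h⌋, m (m - 1) + |B| - 1)`
   for every finite set `B` and every `h ≥ 1` with `m h ≤ |B|`.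
3. For relations `F (y ^ μ_1, ..., y ^ μ_r) = 0` between given multiplicatively independent monomials,
   `F` of degree at most `a_i` in the `i`-th variable, the dimension is less than
   `(m - 2) N + (m ^ 2 + (m + 1) 2 ^ (r - 1)) ∏ (⌊√a_i⌋ + 1)`, whatever the degrees of
   the monomials are.
4. For pairs with relations of total degree at most `D` the dimension is at most `4 D`.
5. If moreover any `s` independent linear combinations of the `y_i` are algebraically independent
   (`1 ≤ s < m`), then `m - 2` can be replaced by `m - 1 - s` in 1; for `s = m - 1` the dimension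
   does not depend on `N`.

Parts 1 - 4 contain the corresponding bounds for the number of tuples of logarithms
`y_i = ∑ a_ij l_j` with integers `|a_ij| ≤ H`.

The proof.  If `f (y) = 0` is a relation in the family, then there are many tangent vectors `dy` in
`W ^ m` for which `∑ (∂f/∂Y_i)(y) dy_i` is the value at `y` of a polynomial with exponents in `A`, and
the hyperplane case of the linear subgroup theorem (Waldschmidt, Roy) bounds their number by
`m (m - 1) + |A| - 1`, if there are no linear relations between the numbers `(∂f/∂Y_i)(y)`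
(multipliers with exponents in `B` give the more precise bounds).  The number of the linear
relations between the partial derivatives must therefore be bounded.  If `A` is closed downwards one
takes `f` of the smallest degree.  For arbitrary `A` we take `f` with the smallest number of
monomials: then not all `(∂f/∂Y_i)(y)` vanish, since otherwise
`Y_i ∂f/∂Y_i - c f` would be a relation with fewer monomials; and if the vector `(∂f/∂Y_i)(y)_i` is a
combination `∑ θ_j u_j` of `s` vectors `u_j` with algebraic coordinates, then for every derivation `δ`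
of `ℂ` over `ℚ̄` we have `0 = δ (f (y)) = ∑ θ_j δ (u_j y)`, and if the `s` numbers `u_j y` are
algebraically independent there are derivations which are dual to them, so that all `θ_j` vanish.
-/

set_option autoImplicit false

open scoped Pointwise

namespace Pool.Agent.Results.MP_60829e_nt.FewMonomials

/-- The space of all linear combinations, with algebraic coefficients, of `1` and of logarithms of
algebraic numbers. -/
noncomputable def LogForms : Submodule (algebraicClosure ℚ ℂ) ℂ :=
  Submodule.span (algebraicClosure ℚ ℂ) ({1} ∪ {z : ℂ | IsAlgebraic ℚ (Complex.exp z)})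

/-- The numbers `y i` satisfy a nontrivial polynomial relation with algebraic coefficients whose
exponents belong to `A`. -/
def RelationIn {m : ℕ} (A : Finset (Fin m →₀ ℕ)) (y : Fin m → ℂ) : Prop :=
  ∃ f : MvPolynomial (Fin m) (algebraicClosure ℚ ℂ), f ≠ 0 ∧ f.support ⊆ A ∧
    MvPolynomial.aeval y f = 0

/-- The numbers `y i` satisfy a nontrivial polynomial relation with algebraic coefficients, of total
degree at most `D` and with at most `k` monomials. -/
def FewMonomialRelation {m : ℕ} (D k : ℕ) (y : Fin m → ℂ) : Prop :=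
  ∃ f : MvPolynomial (Fin m) (algebraicClosure ℚ ℂ), f ≠ 0 ∧ f.totalDegree ≤ D ∧
    f.support.card ≤ k ∧ MvPolynomial.aeval y f = 0

/-- The monomials `∏ j, y j ^ μ i j` satisfy a nontrivial polynomial relation with algebraic
coefficients of degree at most `a i` in the `i`-th variable. -/
def RelationBetweenMonomials {r m : ℕ} (μ : Fin r → (Fin m →₀ ℕ)) (a : Fin r → ℕ)
    (y : Fin m → ℂ) : Prop :=
  ∃ F : MvPolynomial (Fin r) (algebraicClosure ℚ ℂ), F ≠ 0 ∧ (∀ i, F.degreeOf i ≤ a i) ∧
    MvPolynomial.aeval (fun i => ∏ j, y j ^ μ i j) F = 0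

/-- The numbers `y i` satisfy a nontrivial polynomial relation of total degree at most `D` with
algebraic coefficients. -/
def RelationOfDegree {m : ℕ} (D : ℕ) (y : Fin m → ℂ) : Prop :=
  ∃ f : MvPolynomial (Fin m) (algebraicClosure ℚ ℂ), f ≠ 0 ∧ f.totalDegree ≤ D ∧
    MvPolynomial.aeval y f = 0

/-- The independent tuples with property `R` have dimension at most `q`: first, for every space
`W` of linear forms in logarithms of finite dimension `N`, the tuples `y ∈ W ^ m` with property `R`
for which `1, y_1, ..., y_m` are linearly independent lie in an algebraic subset of dimension at most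
`q N`, that is, any `q N + 1` linear forms satisfy a nontrivial polynomial relation at all of them;
secondly, for `ℚ`-linearly independent logarithms `l_1, ..., l_N` of algebraic numbers there are at
most `κ H ^ (q N)` integer matrices `a` with entries at most `H` for which the numbers
`∑ a_ij l_j` are linearly independent over `ℚ` and have property `R`. -/
def DimensionAtMost {m : ℕ} (q : ℕ → ℕ) (R : (Fin m → ℂ) → Prop) : Prop :=
  (∀ (W : Submodule (algebraicClosure ℚ ℂ) ℂ) [FiniteDimensional (algebraicClosure ℚ ℂ) W],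
    W ≤ LogForms →
    ∀ φ : Fin (q (Module.finrank (algebraicClosure ℚ ℂ) W) + 1) →
      ((Fin m → W) →ₗ[algebraicClosure ℚ ℂ] algebraicClosure ℚ ℂ),
    ∃ P : MvPolynomial (Fin (q (Module.finrank (algebraicClosure ℚ ℂ) W) + 1))
        (algebraicClosure ℚ ℂ), P ≠ 0 ∧
      ∀ y : Fin m → W,
        LinearIndependent (algebraicClosure ℚ ℂ)
          (Fin.cons 1 (fun i => (y i : ℂ)) : Fin (m + 1) → ℂ) →
        R (fun i => (y i : ℂ)) → MvPolynomial.eval (fun k => φ k y) P = 0) ∧
  ∀ (N : ℕ) (l : Fin N → ℂ), (∀ j, IsAlgebraic ℚ (Complex.exp (l j))) → LinearIndependent ℚ l →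
    ∃ κ : ℕ, ∀ H : ℕ, 1 ≤ H →
      Set.ncard {a : Fin m → Fin N → ℤ | (∀ i j, |a i j| ≤ H) ∧
        LinearIndependent ℚ (fun i => ∑ j, (a i j : ℂ) * l j) ∧
        R (fun i => ∑ j, (a i j : ℂ) * l j)} ≤ κ * H ^ q N

/-- Any `s` linear combinations of the `y i` with linearly independent vectors of algebraic
coefficients are algebraically independent. -/
def AnyIndependent {m : ℕ} (s : ℕ) (y : Fin m → ℂ) : Prop :=
  ∀ u : Fin s → Fin m → algebraicClosure ℚ ℂ, LinearIndependent (algebraicClosure ℚ ℂ) u →
    AlgebraicIndependent (algebraicClosure ℚ ℂ) (fun j => ∑ i, (u j i : ℂ) * y i)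

open Pool.Agent.Q147.LG Pool.Agent.Q147.SP in
theorem of_thin {m : ℕ} {q q' : ℕ → ℕ} {S : Set (Fin m → ℂ)} {R : (Fin m → ℂ) → Prop}
    (h : Thin Pool.Agent.H301R2.SSE.Lt q S) (hq : ∀ M, q M ≤ q' M + 1)
    (hR : ∀ y, LinearIndependent (algebraicClosure ℚ ℂ) (Fin.cons 1 y : Fin (m + 1) → ℂ) →
      R y → y ∈ S) : DimensionAtMost q' R := by
  refine ⟨fun W _ hW φ => ?_, fun N l halg hli => ?_⟩
  · obtain ⟨P, h1, h2⟩ := dimC h hq W hW φ
    exact ⟨P, h1, fun y hy1 hy2 => h2 y (hR _ hy1 hy2)⟩
  · obtain ⟨κ, hκ⟩ := countC h hq l halg hli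
    refine ⟨κ, fun H hH => le_trans (Set.ncard_le_ncard ?_ ?_) (hκ H hH)⟩
    · rintro a ⟨h1, h2, h3⟩
      exact ⟨h1, hR _ (Pool.Agent.Y787.li_consC _ (fun i => alg_comb l halg (a i)) h2) h3⟩
    · exact (Pool.Agent.Y787.HS.box_finite m N H).subset fun a ha => ha.1

/-- **Main result.** -/
theorem result :
    (∀ m k D : ℕ, 1 < m → 1 ≤ k →
      DimensionAtMost (m := m) (fun N => (m - 2) * N + (m * (m - 1) + k - 1))
        (FewMonomialRelation D k)) ∧
    (∀ (m h c : ℕ) (A B : Finset (Fin m →₀ ℕ)), 1 < m → 0 < h → m * h ≤ B.card →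
      m * (m * h - 1) + ((A + B).card - B.card) / h ≤ c → m * (m - 1) + B.card ≤ c + 1 →
      DimensionAtMost (fun N => (m - 2) * N + c) (RelationIn A)) ∧
    (∀ (r m : ℕ) (μ : Fin r → (Fin m →₀ ℕ)) (a : Fin r → ℕ), 1 < m → 0 < r →
      LinearIndependent ℤ (fun (i : Fin r) (j : Fin m) => (μ i j : ℤ)) →
      DimensionAtMost
        (fun N => (m - 2) * N + (m ^ 2 + (m + 1) * 2 ^ (r - 1)) * ∏ i, (Nat.sqrt (a i) + 1) - 1)
        (RelationBetweenMonomials μ a)) ∧
    (∀ D : ℕ, 1 ≤ D → DimensionAtMost (m := 2) (fun _ => 4 * D) (RelationOfDegree D)) ∧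
    ∀ m s k D : ℕ, 0 < s → s < m → ∀ (W : Submodule (algebraicClosure ℚ ℂ) ℂ)
      [FiniteDimensional (algebraicClosure ℚ ℂ) W], W ≤ LogForms →
      ∀ φ : Fin ((m - 1 - s) * Module.finrank (algebraicClosure ℚ ℂ) W + (m * (m - 1) + k)) →
        ((Fin m → W) →ₗ[algebraicClosure ℚ ℂ] algebraicClosure ℚ ℂ),
      ∃ P : MvPolynomial (Fin ((m - 1 - s) * Module.finrank (algebraicClosure ℚ ℂ) W +
          (m * (m - 1) + k))) (algebraicClosure ℚ ℂ), P ≠ 0 ∧
        ∀ y : Fin m → W, AnyIndependent s (fun i => (y i : ℂ)) →
          FewMonomialRelation D k (fun i => (y i : ℂ)) →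
          MvPolynomial.eval (fun k => φ k y) P = 0 := by
  have := Pool.Agent.Y787.uncountable_complex
  refine ⟨fun m k D hm hk => ?_, fun m h c A B hm hh hmB h1 h2 => ?_,
    fun r m μ a hm hr hμ => ?_, fun D hD => ?_, fun m s k D hs0 hs W _ hW φ => ?_⟩
  · refine of_thin (Pool.Agent.Q147.SP.thin_few hm D k) (fun M => ?_) fun y hy hR => ⟨hy, hR⟩
    omega
  · refine of_thin (Pool.Agent.Q147.SP.thin_dep' (c := c + 1) hm hh A B (A + B)
      (fun s hs t ht => Finset.add_mem_add hs ht) hmB ?_ h2) (fun M => le_rfl)
      fun y hy hR => ⟨hy, hR⟩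
    rw [mul_comm h m]
    omega
  · refine of_thin (Pool.Agent.Q147.SP.thin_mono hm hr μ hμ a) (fun M => ?_)
      fun y hy hR => ⟨hy, hR⟩
    rw [Pool.Agent.Q147.LG.con, Pool.Agent.Q147.LG.num]
    omega
  · refine of_thin (Pool.Agent.Q147.LG.thin_pairs hD) (fun M => le_rfl) fun y hy hR => ?_
    obtain ⟨f, hf0, hfD, hf⟩ := hR
    exact ⟨hy, f, hf0, Pool.Agent.Q147.LG.support_tri f hfD, hf⟩
  · exact (Pool.Agent.Q147.SP.thin_fewS (Lt := Pool.Agent.H301R2.SSE.Lt) hs0 hs D k).dim W hW φ |>.imp
      fun P h => ⟨h.1, fun y hy1 hy2 => h.2 y ⟨hy1, hy2⟩⟩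

end Pool.Agent.Results.MP_60829e_nt.FewMonomials
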