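import Pool.Agent.Q147.GP.TotLogs

/-!
# The logarithms related to given ones in bounded degree form finitely many small spaces

Let `L` be the space of all linear forms, with algebraic coefficients, in `1` and logarithms of
algebraic numbers. Let `x_1, ..., x_n`, `n ≥ 1`, be algebraically independent complex numbers and let
`W ⊆ L` be a space of finite dimension over the field `ℚ̄` of algebraic numbers.

**Theorem.** The `y ∈ W` for which `(x, y)` satisfies a nontrivial relation of total degree at most `D`
form a finite union of subspaces `U`. For each of them, `e` being the dimension of the sum of `U` and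
of the space of all members of `L` which are linear combinations of `1, x_1, ..., x_n`, we have

`q h (e - h) + e ≤ binom ((q + 1) D + n) n` for all `q` and all `h ≤ e`.

For `q = 1` this bounds `e` by about `2 ((2 D) ^ n / n!) ^ (1 / 2)`; for `n = 1` it says
`⌊e ^ 2 / 4⌋ ≤ D`.

**Corollary.** Let `λ_1, ..., λ_n` be algebraically independent logarithms of algebraic numbers and let
`Λ` be a finitely generated group of logarithms of algebraic numbers. The `λ ∈ Λ` for which
`λ_1, ..., λ_n, λ` satisfy a nontrivial relation of total degree at most `D` form a finite union of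
subgroups, and if one of them contains `l_1, ..., l_r` for which `λ_1, ..., λ_n, l_1, ..., l_r` are
linearly independent over the rational numbers, then the inequality holds with `e = n + r + 1`. For
`n = 1` we obtain `(r + 1) (r + 3) ≤ 4 D`.

The proof. For a place of the field `ℚ̄(x)` and a space spanned by `u_1, ..., u_e`, the values of
`∑ t_i u_i` and of its conjugates are constant for all `t` outside a finite union of subspaces; we
apply this to the Gauss norms of all irreducible polynomials and to the place at infinity which belongs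
to the total degree. Hence either all `∑ t_i u_i` satisfy a relation of total degree `≤ D` over
`ℚ̄(x)`, or only those in finitely many proper subspaces (`Pool.Agent.Q147.GP.Total`). In the first
case the norms of the elements of the power `V ^ q` are polynomials in `x` of degree at most `q D`, up
to a common denominator, and hence `dim V ^ q ≤ binom (q D + n) n`. On the other hand, by the
hyperplane case of the linear subgroup theorem (Waldschmidt, Roy), the dimension of `V ^ q` grows by at
least `h (e - h)` when `q` is replaced by `q + 1` (`Pool.Agent.Q147.GP.Grow`).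
-/

set_option autoImplicit false

namespace Pool.Agent.Results.MP_60829e_nt.LinearFibres

open Module

/-- The space of all linear combinations, with algebraic coefficients, of `1` and of logarithms of
algebraic numbers. -/
noncomputable def LogForms : Submodule (algebraicClosure ℚ ℂ) ℂ :=
  Submodule.span (algebraicClosure ℚ ℂ) ({1} ∪ {z : ℂ | IsAlgebraic ℚ (Complex.exp z)})

/-- The numbers `x_1, ..., x_n, y` satisfy a nontrivial polynomial relation of total degree at most
`D` with algebraic coefficients. -/
def RelationOfDegree {n : ℕ} (D : ℕ) (x : Fin n → ℂ) (y : ℂ) : Prop :=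
  ∃ f : MvPolynomial (Fin (n + 1)) (algebraicClosure ℚ ℂ), f ≠ 0 ∧ f.totalDegree ≤ D ∧
    MvPolynomial.aeval (Fin.cons y x : Fin (n + 1) → ℂ) f = 0

/-- The members of `LogForms` which are linear combinations of `1, x_1, ..., x_n`. -/
noncomputable def LinearPart {n : ℕ} (x : Fin n → ℂ) : Submodule (algebraicClosure ℚ ℂ) ℂ :=
  Submodule.span (algebraicClosure ℚ ℂ) ({1} ∪ Set.range x) ⊓ LogForms

open Pool.Agent.Y787 (QC HypC li_consC)
open Pool.Agent.H301R2.SSE (Lt Lt_log)
open Pool.Agent.Q147.GP

/-- **Main result.** -/
theorem result :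
    (∀ n : ℕ, 0 < n → ∀ x : Fin n → ℂ, AlgebraicIndependent (algebraicClosure ℚ ℂ) x →
      ∀ (D : ℕ) (W : Submodule (algebraicClosure ℚ ℂ) ℂ),
        FiniteDimensional (algebraicClosure ℚ ℂ) W → W ≤ LogForms →
        ∃ S : Set (Submodule (algebraicClosure ℚ ℂ) ℂ), S.Finite ∧
          (∀ y, (y ∈ W ∧ RelationOfDegree D x y) ↔ ∃ U ∈ S, y ∈ U) ∧
          ∀ U ∈ S, ∀ e q h : ℕ,
            e = finrank (algebraicClosure ℚ ℂ) (U ⊔ LinearPart x : Submodule _ ℂ) → h ≤ e →
            q * (h * (e - h)) + e ≤ ((q + 1) * D + n).choose n ∧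
            (n = 1 → h * (e - h) ≤ D)) ∧
    ∀ n : ℕ, 0 < n → ∀ x : Fin n → ℂ, AlgebraicIndependent (algebraicClosure ℚ ℂ) x →
      (∀ i, IsAlgebraic ℚ (Complex.exp (x i))) →
      ∀ (D : ℕ) (Λ : AddSubgroup ℂ), Λ.FG → (∀ l ∈ Λ, IsAlgebraic ℚ (Complex.exp l)) →
        ∃ S : Set (AddSubgroup ℂ), S.Finite ∧
          (∀ l, (l ∈ Λ ∧ RelationOfDegree D x l) ↔ ∃ Δ ∈ S, l ∈ Δ) ∧
          ∀ Δ ∈ S, ∀ (r : ℕ) (l : Fin r → ℂ), (∀ i, l i ∈ Δ) →
            LinearIndependent ℚ (Fin.append x l) →
            (∀ q h : ℕ, h ≤ n + r + 1 →
              q * (h * (n + r + 1 - h)) + (n + r + 1) ≤ ((q + 1) * D + n).choose n) ∧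
            (n = 1 → (r + 1) * (r + 3) ≤ 4 * D) := by
  have := isAlgClosed_QC ℂ
  refine ⟨fun n hn x hx D W hWf hW => ?_, fun n hn x hx hxL D Λ hΛ hΛL => ?_⟩
  · obtain ⟨UU, hUf, hUU, hb⟩ := total_main (Lt := Lt) hn x hx D W hW
    have hrel : ∀ y, RelationOfDegree D x y ↔ RelT (k := QC ℂ) x D y := fun y =>
      (relT_iff x D y).symm
    refine ⟨UU, hUf, fun y => by rw [hrel]; exact hUU y, ?_⟩
    intro U hU e q h he hh
    refine ⟨hb U hU e q h he hh, ?_⟩
    rintro rfl
    rcases Nat.eq_zero_or_pos e with rfl | he0
    · obtain rfl : h = 0 := Nat.le_zero.1 hh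
      exact Nat.zero_le _
    · exact choose_one_bound he0 fun q => hb U hU e q h he hh
  · obtain ⟨S, hSf, hS, hb⟩ := group_tot (Lt := Lt) hn x hx (fun i => Lt_log (hxL i)) D Λ hΛ
      (fun l hl => Lt_log (hΛL l hl)) (fun r l hl hli => li_consC _ (fun j => by
        refine Fin.addCases (fun i => ?_) (fun i => ?_) j
        · rw [Fin.append_left]
          exact hxL i
        · rw [Fin.append_right]
          exact hΛL _ (hl i)) hli)
    have hrel : ∀ y, RelationOfDegree D x y ↔ RelT (k := QC ℂ) x D y := fun y =>
      (relT_iff x D y).symm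
    refine ⟨S, hSf, fun l => by rw [hrel]; exact hS l, ?_⟩
    intro Δ hΔ r l hl hli
    refine ⟨hb Δ hΔ r l hl hli, ?_⟩
    rintro rfl
    refine arith_rank fun h hh => ?_
    have := choose_one_bound (e := 1 + r + 1) (D := D) (h := h) (by omega)
      (fun q => hb Δ hΔ r l hl hli q h (by omega))
    rwa [show r + 2 = 1 + r + 1 by omega]

end Pool.Agent.Results.MP_60829e_nt.LinearFibres
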