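import Pool.Agent.Q246.NR2.PropN
import Pool.Agent.Q246.NR2.LogInp

/-!
# Algebraic independence, with a measure, of logarithms of almost all tuples of algebraic integers of bounded degree

The conjecture says that logarithms `log β₁, ..., log β_k` of algebraic numbers are algebraically independent if they
are linearly independent over `ℚ`.  We consider arbitrary fixed determinations `L` of the logarithm, and tuples of
nonzero algebraic integers of degree at most `m` all of whose conjugates are at most `T` in absolute value.  There are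
`B` and `c > 0` such that, for all but a proportion `O(T ^ (-c))` of the `k`-tuples `x`, the inequality
`|P(L x₁, ..., L x_k)| ≥ H ^ (-B)` holds for all nonzero integer polynomials `P` of degree at most `d` and height at most
`H`,

* for all `H` in a long interval from `H₁` to `H₁ ^ exp (T ^ c)`, for any sufficiently large `H₁`;
* for a set of `H` of upper density at least `1 - T ^ (-c)` on the doubly logarithmic scale; in particular for
  arbitrarily large `H`, with an exceptional set of tuples which does not depend on `H`.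

The same holds relative to arbitrary complex constants `ζ₁, ..., ζ_g`, uniformly in `ζ`:
`|P(ζ, L x)| ≥ H ^ (-B) |P_e(ζ)|` for all coefficients `P_e(ζ)` of `P(ζ, X)`.  In particular the numbers `L x_j` satisfy no
algebraic relation of degree at most `d` with coefficients in `ℤ[ζ]`, of degree at most `d` in `ζ`.

Proof (modules `Pool.Agent.Q246.NR`, `Pool.Agent.Q246.NR2`).  (1) For points `ξ - g` with `ξ` in a number field of degree
at most `m` and `1 ≤ g ≤ h`, `(h + 2) ^ E ≤ |ξ|`, the values `log (1 - g / ξ)` are values of G-functions at the small point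
`1 / ξ`, and a quantitative form, for near relations of arbitrary height, of the theorem of Chudnovsky and Galochkin gives
a lower bound for the values of all polynomials of bounded degree and arbitrary height in `n` such logarithms, with an
exponent which does not depend on the window.  (2) If more points of a window satisfy near relations whose
coefficients are integer combinations of the same `n` constants (which include the powers of `log ξ` and of `2 π i`), the
constants are eliminated one after the other; this contradicts (1).  So a window contains a bounded number of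
exceptional points, for each `H`.  (3) Induction on `k`, where the logarithms of `x₂, ..., x_k` are treated as
constants.  (4) A double counting over the heights `2 ^ (2 ^ j)`.
-/

set_option autoImplicit false

namespace Pool.Agent.Results.MP_60829e_nt.MeasureAlmostAllTuples

/-- the algebraic integers of degree at most `m` all of whose conjugates have absolute value at most `T` -/
def Ints (m T : ℕ) : Set ℂ :=
  {α | IsIntegral ℤ α ∧ (minpoly ℚ α).natDegree ≤ m ∧ ∀ z : ℂ, Polynomial.aeval z (minpoly ℚ α) = 0 → ‖z‖ ≤ T}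

/-- `P = Σ P_e(Y) X ^ e` has degree at most `d` in `X`, its coefficients `P_e` have degree at most `d` in `Y`,
and the integer coefficients are at most `H` in absolute value -/
def Adm {k g : ℕ} (d : ℕ) (H : ℝ) (P : MvPolynomial (Fin k) (MvPolynomial (Fin g) ℤ)) : Prop :=
  P.totalDegree ≤ d ∧ ∀ e, (P.coeff e).totalDegree ≤ d ∧ ∀ f, |(((P.coeff e).coeff f : ℤ) : ℝ)| ≤ H

/-- the value `P(ζ, w)` -/
noncomputable def val {k g : ℕ} (ζ : Fin g → ℂ) (w : Fin k → ℂ) (P : MvPolynomial (Fin k) (MvPolynomial (Fin g) ℤ)) :
    ℂ := MvPolynomial.eval₂ (MvPolynomial.aeval ζ).toRingHom w P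

/-- the measure of algebraic independence of the numbers `w j` for polynomials of degree at most `d` and height
at most `H`, also relative to the constants `ζ` -/
def Good {k g : ℕ} (d B : ℕ) (ζ : Fin g → ℂ) (w : Fin k → ℂ) (H : ℝ) : Prop :=
  (∀ P : MvPolynomial (Fin k) ℤ, P ≠ 0 → P.totalDegree ≤ d → (∀ e, |((P.coeff e : ℤ) : ℝ)| ≤ H) →
    1 ≤ H ^ B * ‖MvPolynomial.aeval w P‖) ∧
  ∀ P : MvPolynomial (Fin k) (MvPolynomial (Fin g) ℤ), Adm d H P →
    ∀ e, ‖MvPolynomial.aeval ζ (P.coeff e)‖ ≤ H ^ B * ‖val ζ w P‖

/-- renaming the variables -/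
lemma good_rename {k g d B : ℕ} {ζ : Fin g → ℂ} {w : Fin k × Unit → ℂ} {H : ℝ}
    (h : Pool.Agent.Q246.NR2.Good d B ζ w H) : Good d B ζ (fun j => w (j, ())) H := by
  have hinj : Function.Injective (fun j : Fin k => (j, ())) := fun i j hij => congrArg Prod.fst hij
  refine ⟨fun P hP hd hH => ?_, fun P hP e => ?_⟩
  · have h1 := h.1 (MvPolynomial.rename (fun j => (j, ())) P)
      (fun h0 => hP (MvPolynomial.rename_injective _ hinj (h0.trans (map_zero _).symm)))
      ((MvPolynomial.totalDegree_rename_le _ _).trans hd) (fun e => by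
        by_cases he : (MvPolynomial.rename (fun j : Fin k => (j, ())) P).coeff e = 0
        · rw [he]
          have := hH 0
          have h0 : (0 : ℝ) ≤ H := (abs_nonneg _).trans this
          simpa using h0
        · obtain ⟨u, hu, -⟩ := MvPolynomial.coeff_rename_ne_zero _ _ _ he
          rw [← hu, MvPolynomial.coeff_rename_mapDomain _ hinj]
          exact hH u)
    rw [MvPolynomial.aeval_rename] at h1
    exact h1
  · have h1 := h.2 (MvPolynomial.rename (fun j => (j, ())) P)
      ⟨(MvPolynomial.totalDegree_rename_le _ _).trans hP.1, fun e => by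
        by_cases he : (MvPolynomial.rename (fun j : Fin k => (j, ())) P).coeff e = 0
        · rw [he]
          refine ⟨by simp, fun f => ?_⟩
          have := (hP.2 0).2 0
          have h0 : (0 : ℝ) ≤ H := (abs_nonneg _).trans this
          simpa using h0
        · obtain ⟨u, hu, -⟩ := MvPolynomial.coeff_rename_ne_zero _ _ _ he
          rw [← hu, MvPolynomial.coeff_rename_mapDomain _ hinj]
          exact hP.2 u⟩ (Finsupp.mapDomain (fun j => (j, ())) e)
    rw [MvPolynomial.coeff_rename_mapDomain _ hinj] at h1
    refine h1.trans (le_of_eq ?_)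
    rw [Pool.Agent.Q246.NR2.val, MvPolynomial.eval₂_rename]
    rfl

/-- Let `L` be any determination of the logarithm.  For all `k`, `g`, `d` and `m ≥ 1` there are `B`, `C` and `c > 0`
such that for all `T ≥ 1`: for all but a proportion `C T ^ (-c)` of the tuples `x` of nonzero elements of `Ints m T` the
measure `|P(L x)| ≥ H ^ (-B)` holds for all `H` with `H₁ ≤ H ≤ H₁ ^ exp (T ^ c)`, for each large `H₁`; and, with one
exceptional set for all `H`, for a set of `H` of upper density at least `1 - T ^ (-c)` on the doubly logarithmic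
scale; also relative to arbitrary constants. -/
theorem result (L : ℂ → ℂ) (hL : ∀ z, z ≠ 0 → Complex.exp (L z) = z) (k g d m : ℕ) (hm : 1 ≤ m) :
    ∃ (B : ℕ) (C c : ℝ), 0 < c ∧ ∀ T : ℕ, 1 ≤ T →
    (∃ H₀ : ℝ, ∀ H₁ : ℝ, H₀ ≤ H₁ → ∀ ζ : Fin g → ℂ,
      (({x : Fin k → ℂ | (∀ j, x j ∈ Ints m T ∧ x j ≠ 0) ∧ ¬ ∀ H : ℝ, H₁ ≤ H → H ≤ H₁ ^ Real.exp ((T : ℝ) ^ c) →
        Good d B ζ (fun j => L (x j)) H}.ncard : ℕ) : ℝ) ≤
          C * (T : ℝ) ^ (-c) * (((Ints m T).ncard : ℕ) : ℝ) ^ k) ∧
    ∀ ζ : Fin g → ℂ, (({x : Fin k → ℂ | (∀ j, x j ∈ Ints m T ∧ x j ≠ 0) ∧ ¬ ∀ N₀ : ℕ, ∃ N, N₀ ≤ N ∧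
      (({j : ℕ | j < N ∧ ¬ ∀ H : ℝ, 2 ^ (2 ^ j) ≤ H → H ≤ 2 ^ (2 ^ (j + 1)) →
        Good d B ζ (fun j => L (x j)) H}.ncard : ℕ) : ℝ) ≤ (T : ℝ) ^ (-c) * N}.ncard : ℕ) : ℝ) ≤
          C * (T : ℝ) ^ (-c) * (((Ints m T).ncard : ℕ) : ℝ) ^ k := by
  have hwin := Pool.Agent.Q246.NR2.win Pool.Agent.Q246.NR2.inpN_log (Pool.Agent.Q246.NR2.link_log L hL m)
  exact Pool.Agent.Q246.NR2.masterNF' m hm (fun z (_ : Unit) => L z) (fun z => z ≠ 0) (-1) (by norm_num) hwin k g d
    (fun B ζ x H => Good d B ζ (fun j => L (x j)) H) (fun B ζ x H _ h => good_rename (w := fun p : Fin k × Unit => L (x p.1)) h)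

end Pool.Agent.Results.MP_60829e_nt.MeasureAlmostAllTuples
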