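import Pool.Agent.Q147.MM.Inst
import Pool.Agent.Q147.MO.Psi
import Pool.Agent.H297R2.Density

/-!
# Monomials of all degrees in logarithms: linear independence outside a thin set

Let `l_p` (`p` prime) be logarithms of algebraic numbers, linearly independent over `ℚ` (for
instance `l_p = log p`), and let `l_n = ∏ l_p ^ v_p(n)` be the monomials in these numbers, numbered by
the positive integers.  Baker's theorem says that `1` and the `l_p` are linearly independent over
`ℚ̄`; the conjecture says that all `l_n` are.  `Ω(n)` is the number of prime factors of `n`, the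
degree of the monomial.  More generally the `l_p` may be linear forms in logarithms, linearly
independent with `1` over `ℚ̄`.

A set `B` of integers is called free if the `l_n` (`n ∈ B`) are linearly independent over `ℚ̄`, even
modulo the space of all linear forms in `1` and logarithms of algebraic numbers; more generally with
coefficients in the space spanned over `ℚ̄` by `1` and arbitrary complex numbers `w_1, ..., w_r`.

(1) Let `ψ` be a nondecreasing function with `ψ(q) < q` (for instance `q ^ (1/K)` or `log q`).  There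
is a set `X` with at most `2 (r+1)² (ψ(N)² + 1)` elements up to `N`, for all `N`, such that the set of
the integers `n = p_1 ⋯ p_k`, `k ≥ 2`, with `p_1 ⋯ p_j ≤ ψ(p_{j+1})` for `1 ≤ j < k` and without an
initial product `p_1 ⋯ p_j` (`1 ≤ j ≤ k`) in `X`, is free.  If `ψ(q)` lies between `q ^ (1/M)` and
`q ^ (1/3)` for large `q`, then this set contains almost all integers with at most `k` prime factors,
for all `k` at the same time.

(2) There is a free set which contains almost all integers with at most `k` prime factors, for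
all `k`, and at least `c N / (log N) ^ (9/40)` integers up to `N` (Baker: `N / log N`; conjecture:
`N`).

The proof.  Let `x_a` (`a ∈ A`, `|A| = d`) be linearly independent over `ℚ̄`.  By the hyperplane case
of the linear subgroup theorem (Waldschmidt, Roy; in the starting library) the products `x_a l_q`,
`q ∈ Q_a`, span a space of dimension at least `∑ |Q_a| - d (d-1)`.  We take the greedy basis `B` (in
the natural order) of the family of the `l_n`, `n` a product of rapidly increasing primes as in (1).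
If `n = a q ∈ B` (`q` the largest prime factor), then `a ∈ B`, because multiplication by `q` maps the
smaller elements of the family to smaller elements of the family.  So the elements `a q` of the family
with `a ∈ B` and `a q ∉ B` up to `N` are counted exactly by a difference of dimensions, which is
at most `ψ(N)²`; they form the set `X`.
-/

set_option autoImplicit false

namespace Pool.Agent.Results.MP_60829e_nt.MonomialsOfAllDegrees

open Filter Topology
open Pool.Agent.Q147.MM Pool.Agent.Q147.MO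
open Pool.Agent.Y787 (QC mem_QC)
open Pool.Agent.H301R2.SSE (Lt Lt_log Lt_alg Lt_mul)

/-- algebraic over the rational numbers -/
abbrev Alg (z : ℂ) : Prop := IsAlgebraic ℚ z

/-- `z = γ + β₁ λ₁ + … + β_m λ_m` with `γ`, the `β_i` and the exponentials of the `λ_i` algebraic:
`z` is a linear form in `1` and logarithms of algebraic numbers, with algebraic coefficients -/
def LinForm (z : ℂ) : Prop := ∃ (m : ℕ) (γ : ℂ) (β lg : Fin m → ℂ), Alg γ ∧ (∀ i, Alg (β i)) ∧
  (∀ i, Alg (Complex.exp (lg i))) ∧ z = γ + ∑ i, β i * lg i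

/-- the monomial `∏ l_p ^ v_p(n)` over the prime factors `p` of `n` -/
noncomputable def mono (l : ℕ → ℂ) (n : ℕ) : ℂ := ∏ p ∈ n.primeFactors, l p ^ n.factorization p

/-- the number of the `n ∈ B` with `1 ≤ n ≤ N` -/
noncomputable def count (B : Set ℕ) (N : ℕ) : ℕ := Set.ncard {n | n ∈ B ∧ 1 ≤ n ∧ n ≤ N}

/-- number of prime factors, with multiplicity -/
abbrev Om (n : ℕ) : ℕ := ArithmeticFunction.cardFactors n

theorem LinForm.mem {z : ℂ} (h : LinForm z) : z ∈ Lt := by
  obtain ⟨m, γ, β, l, hγ, hβ, hl, rfl⟩ := h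
  exact Lt.add_mem (Lt_alg hγ) (Submodule.sum_mem _ fun i _ => Lt_mul (hβ i) (Lt_log (hl i)))

theorem linForm_of_exp {z : ℂ} (h : Alg (Complex.exp z)) : LinForm z :=
  ⟨1, 0, fun _ => 1, fun _ => z, isAlgebraic_zero, fun _ => isAlgebraic_one, fun _ => h, by simp⟩

theorem mono_eq (l : ℕ → ℂ) (n : ℕ) : mono l n = lam l n := by
  rw [mono, lam, Finsupp.prod, Nat.support_factorization]

theorem count_eq (B : Set ℕ) (N : ℕ) : count B N = cnt B N := by
  rw [count, cnt, ← Set.ncard_coe_finset]
  congr 1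
  ext n
  rw [Finset.mem_coe, mem_upto]
  exact and_comm

theorem log_primes_li : LinearIndependent ℚ (fun p : Nat.Primes => ((Real.log (p : ℕ) : ℝ) : ℂ)) := by
  rw [linearIndependent_iff_finset_linearIndependent]
  intro s
  exact Pool.Agent.H297R2.linearIndependent_log_prime (fun p : s => ((p : Nat.Primes) : ℕ))
    (fun p => p.1.2) (fun p q hpq => Subtype.ext (Subtype.ext hpq))

/-- the `l p` (`p` prime) are linear forms in logarithms of algebraic numbers, and `1` and the `l p`
are linearly independent over the field of algebraic numbers -/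
def Free (l : ℕ → ℂ) : Prop := (∀ p : ℕ, p.Prime → LinForm (l p)) ∧
  ∀ F : Finset ℕ, (∀ p ∈ F, p.Prime) → ∀ (γ : ℂ) (β : ℕ → ℂ), Alg γ → (∀ p, Alg (β p)) →
    γ + ∑ p ∈ F, β p * l p = 0 → γ = 0 ∧ ∀ p ∈ F, β p = 0

theorem free_of_log {l : ℕ → ℂ} (hl : ∀ p : ℕ, p.Prime → Alg (Complex.exp (l p)))
    (hli : LinearIndependent ℚ (fun p : Nat.Primes => l p)) : Free l := by
  classical
  refine ⟨fun p hp => linForm_of_exp (hl p hp), fun F hF γ β hγ hβ h => ?_⟩
  have h1 := (goodC l hl hli).li
  let c : ℕ → QC ℂ := fun q => if q = 1 then ⟨γ, mem_QC.2 hγ⟩ else ⟨β q, mem_QC.2 (hβ q)⟩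
  have hF1 : (1 : ℕ) ∉ F := fun h => Nat.not_prime_one (hF 1 h)
  have h2 : LinearIndepOn (QC ℂ) (lam l) ((insert 1 F : Finset ℕ) : Set ℕ) := by
    refine h1.mono fun q hq => ?_
    rw [Finset.mem_coe, Finset.mem_insert] at hq
    exact hq.imp id (hF q)
  have h3 := linearIndepOn_finset_iff.1 h2 c (by
    rw [Finset.sum_insert hF1, ← h]
    congr 1
    · rw [lam_one, Algebra.smul_def, mul_one]
      simp only [c, if_true]
      rfl
    · refine Finset.sum_congr rfl fun p hp => ?_
      rw [lam_prime l (hF p hp), Algebra.smul_def]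
      simp only [c, if_neg (hF p hp).ne_one]
      rfl)
  refine ⟨?_, fun p hp => ?_⟩
  · have h4 := h3 1 (Finset.mem_insert_self _ _)
    simp only [c, if_true] at h4
    exact congrArg Subtype.val h4
  · have h4 := h3 p (Finset.mem_insert_of_mem hp)
    simp only [c, if_neg (hF p hp).ne_one] at h4
    exact congrArg Subtype.val h4

theorem Free.good {l : ℕ → ℂ} (h : Free l) : Good Lt l where
  mem p hp := (h.1 p hp).mem
  li := by
    classical
    refine li_of_fin l fun n p hinj hp => ?_
    rw [Fintype.linearIndependent_iff]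
    intro g hg
    rw [Fin.sum_univ_succ] at hg
    simp only [Fin.cons_zero, Fin.cons_succ] at hg
    let β : ℕ → ℂ := fun q => if hq : ∃ i, p i = q then (g hq.choose.succ : ℂ) else 0
    have hβp : ∀ i, β (p i) = (g i.succ : ℂ) := by
      intro i
      have hq : ∃ j, p j = p i := ⟨i, rfl⟩
      have h1 : hq.choose = i := hinj hq.choose_spec
      simp only [β, dif_pos hq, h1]
    have hβ : ∀ q, Alg (β q) := by
      intro q
      by_cases hq : ∃ i, p i = q
      · simp only [β, dif_pos hq]
        exact mem_QC.1 (g _).2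
      · simp only [β, dif_neg hq]
        exact isAlgebraic_zero
    have h2 := h.2 (Finset.univ.image p) (fun q hq => by
      obtain ⟨i, _, rfl⟩ := Finset.mem_image.1 hq
      exact hp i) (g 0 : ℂ) β (mem_QC.1 (g 0).2) hβ (by
      rw [Finset.sum_image (fun i _ j _ hij => hinj hij), ← hg, Algebra.smul_def, mul_one]
      congr 1
      refine Finset.sum_congr rfl fun i _ => ?_
      rw [hβp, Algebra.smul_def]
      rfl)
    intro i
    refine Fin.cases ?_ (fun j => ?_) i
    · exact Subtype.ext h2.1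
    · refine Subtype.ext ?_
      rw [← hβp j]
      exact h2.2 _ (Finset.mem_image_of_mem p (Finset.mem_univ j))

/-- the integers `p_1 ⋯ p_k`, `k ≥ 0`, where the `p_j` are primes with `p_1 ⋯ p_j ≤ ψ p_{j+1}` for
`0 ≤ j < k` and no initial product `p_1 ⋯ p_j` (`1 ≤ j ≤ k`) belongs to `X` -/
inductive Lacunary (ψ : ℕ → ℕ) (X : Set ℕ) : ℕ → Prop
  | one : Lacunary ψ X 1
  | mul (a q : ℕ) : Lacunary ψ X a → q.Prime → a ≤ ψ q → a * q ∉ X → Lacunary ψ X (a * q)

theorem lac_iff (ψ : ℕ → ℕ) (X : Set ℕ) (n : ℕ) : Lacunary ψ X n ↔ Lac (CP ψ) X n := by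
  constructor
  · intro h
    induction h with
    | one => exact Lac.one
    | mul a q _ hq hc hX ih => exact Lac.mul a q ih hq hc hX
  · intro h
    induction h with
    | one => exact Lacunary.one
    | mul a q _ hq hc hX ih => exact Lacunary.mul a q ih hq hc hX

/-- `B` contains almost all integers with at most `k` prime factors, for every `k ≥ 2` -/
def AlmostAll (B : Set ℕ) : Prop := ∀ k : ℕ, 2 ≤ k →
  Tendsto (fun N : ℕ => (count {n | n ∈ B ∧ Om n ≤ k} N : ℝ) / count {n | Om n ≤ k} N) atTop (𝓝 1)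

/-- the monomials `l_n`, `n ∈ B`, are linearly independent, also modulo linear forms in logarithms,
with coefficients in the space spanned by `1` and the `w i` over the algebraic numbers: a sum
`∑ u_n l_n` over a finite subset of `B`, where the `u_n = α_n + ∑ β_{n,i} w_i` are not all zero, is
neither a linear form in logarithms nor the logarithm of an algebraic number -/
def FreeSet {r : ℕ} (l : ℕ → ℂ) (w : Fin r → ℂ) (B : Set ℕ) : Prop :=
  ∀ F : Finset ℕ, (∀ n ∈ F, n ∈ B) → ∀ (α : ℕ → ℂ) (β : ℕ → Fin r → ℂ), (∀ n, Alg (α n)) →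
    (∀ n i, Alg (β n i)) → (∃ n ∈ F, α n + ∑ i, β n i * w i ≠ 0) →
    ¬ LinForm (∑ n ∈ F, (α n + ∑ i, β n i * w i) * mono l n) ∧
    ¬ Alg (Complex.exp (∑ n ∈ F, (α n + ∑ i, β n i * w i) * mono l n))

theorem freeSet_of {r : ℕ} {l : ℕ → ℂ} {w : Fin r → ℂ} {B : Set ℕ}
    (h : FreeOn Lt l (Submodule.span (QC ℂ) (Set.range w)) B) : FreeSet l w B := by
  have key : ∀ F : Finset ℕ, (∀ n ∈ F, n ∈ B) → ∀ (α : ℕ → ℂ) (β : ℕ → Fin r → ℂ),
      (∀ n, Alg (α n)) → (∀ n i, Alg (β n i)) → (∃ n ∈ F, α n + ∑ i, β n i * w i ≠ 0) →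
      ¬ LinForm (∑ n ∈ F, (α n + ∑ i, β n i * w i) * mono l n) := by
    intro F hF α β hα hβ h0 hLin
    obtain ⟨n, hn, hne⟩ := h0
    refine hne (h F hF (fun n => α n + ∑ i, β n i * w i) (fun n _ => ?_) ?_ n hn)
    · refine Submodule.add_mem _ (Submodule.mem_sup_right ?_) (Submodule.mem_sup_left ?_)
      · have h1 : α n = (⟨α n, mem_QC.2 (hα n)⟩ : QC ℂ) • (1 : ℂ) := by
          rw [Algebra.smul_def, mul_one]
          rfl
        rw [h1]
        exact Submodule.smul_mem _ _ (Submodule.mem_span_singleton_self 1)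
      · refine Submodule.sum_mem _ fun i _ => ?_
        have : β n i * w i = (⟨β n i, mem_QC.2 (hβ n i)⟩ : QC ℂ) • w i := by
          rw [Algebra.smul_def]
          rfl
        rw [this]
        exact Submodule.smul_mem _ _ (Submodule.subset_span ⟨i, rfl⟩)
    · have h1 := hLin.mem
      simp only [mono_eq] at h1
      exact h1
  intro F hF α β hα hβ h0
  exact ⟨key F hF α β hα hβ h0, fun h => key F hF α β hα hβ h0 (linForm_of_exp h)⟩

theorem almostAll_of {B : Set ℕ}
    (h : ∀ k : ℕ, Tendsto (fun N : ℕ => (cnt (Sk (k + 2) \ B) N : ℝ) / cnt (Sk (k + 2)) N) atTop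
      (𝓝 0)) : AlmostAll B := by
  intro k hk
  obtain ⟨j, rfl⟩ := Nat.exists_eq_add_of_le' hk
  refine (dens_one _ _ (Sk_pos (j + 2)) (h j)).congr fun N => ?_
  rw [count, count, cnt, cnt, ← Set.ncard_coe_finset, ← Set.ncard_coe_finset]
  congr 3
  · ext n
    rw [Finset.mem_coe, mem_upto]
    constructor
    · rintro ⟨h1, h2, h3⟩
      exact ⟨⟨h2, h3.2⟩, h1⟩
    · rintro ⟨⟨h1, h2⟩, h3⟩
      exact ⟨h3, h1, Nat.one_le_iff_ne_zero.1 h3.1, h2⟩
  · ext n
    rw [Finset.mem_coe, mem_upto]
    constructor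
    · rintro ⟨h1, h2⟩
      exact ⟨h2.2, h1⟩
    · rintro ⟨h1, h2⟩
      exact ⟨h2, Nat.one_le_iff_ne_zero.1 h2.1, h1⟩

/-- **Main result.** -/
theorem result :
    -- logarithms of algebraic numbers, linearly independent over the rational numbers (Baker)
    (∀ l : ℕ → ℂ, (∀ p : ℕ, p.Prime → Alg (Complex.exp (l p))) →
      LinearIndependent ℚ (fun p : Nat.Primes => l p) → Free l) ∧
    -- for instance the logarithms of the primes
    Free (fun p => ((Real.log p : ℝ) : ℂ)) ∧
    ∀ l : ℕ → ℂ, Free l → ∀ (r : ℕ) (w : Fin r → ℂ),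
      -- (1) a thin set of exceptions
      (∀ ψ : ℕ → ℕ, Monotone ψ → (∀ q : ℕ, q.Prime → ψ q < q) → ∃ X : Set ℕ,
        (∀ N : ℕ, count X N ≤ 2 * (r + 1) ^ 2 * (ψ N ^ 2 + 1)) ∧
        FreeSet l w {n | Lacunary ψ X n ∧ 2 ≤ Om n} ∧
        ((∃ M : ℕ, ∀ᶠ q : ℕ in atTop, ψ q ^ 3 ≤ q ∧ q ≤ ψ q ^ M) →
          AlmostAll {n | Lacunary ψ X n ∧ 2 ≤ Om n})) ∧
      -- (2) one large set for all degrees
      (∃ B : Set ℕ, (∀ n ∈ B, 2 ≤ Om n) ∧ AlmostAll B ∧
        (∃ c : ℝ, 0 < c ∧ ∃ N₀ : ℕ, ∀ N : ℕ, N₀ ≤ N →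
          c * (N / (Real.log N) ^ (9 / 40 : ℝ)) ≤ (count B N : ℝ)) ∧
        FreeSet l w B) := by
  refine ⟨fun l hl hli => free_of_log hl hli, free_of_log (fun p hp => ?_) log_primes_li,
    fun l hl r w => ?_⟩
  · rw [← Complex.ofReal_exp, Real.exp_log (by exact_mod_cast hp.pos)]
    have : ((p : ℝ) : ℂ) = ((p : ℚ) : ℂ) := by push_cast; rfl
    rw [this]
    exact isAlgebraic_algebraMap (p : ℚ)
  let W : Submodule (QC ℂ) ℂ := Submodule.span (QC ℂ) (Set.range w)
  have hfin : FiniteDimensional (QC ℂ) W :=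
    FiniteDimensional.span_of_finite _ (Set.finite_range _)
  have hr : Module.finrank (QC ℂ) W ≤ r := by
    have := finrank_range_le_card (R := QC ℂ) w
    simpa [Set.finrank, W] using this
  constructor
  · intro ψ hψ hψ1
    obtain ⟨X, hX1, hX2, hX3⟩ := mainPsi hl.good W ψ hψ hψ1
    have hset : {n | Lacunary ψ X n ∧ 2 ≤ Om n} =
        {n | Lac (CP ψ) X n ∧ 2 ≤ ArithmeticFunction.cardFactors n} := by
      ext n
      simp only [Set.mem_setOf_eq, lac_iff]
    refine ⟨X, fun N => ?_, ?_, fun hM => ?_⟩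
    · rw [count_eq]
      refine (hX1 N).trans (Nat.mul_le_mul_right _ (Nat.mul_le_mul_left 2 ?_))
      exact Nat.pow_le_pow_left (by omega) 2
    · rw [hset]
      exact freeSet_of hX2
    · rw [hset]
      exact almostAll_of (hX3 hM)
  · obtain ⟨B, hB1, hB2, ⟨c, hc, N0, hN0⟩, hB4⟩ := mainOne hl.good W
    refine ⟨B, hB1, almostAll_of hB2, ⟨c, hc, N0, fun N hN => ?_⟩, freeSet_of hB4⟩
    rw [count_eq]
    exact hN0 N hN

end Pool.Agent.Results.MP_60829e_nt.MonomialsOfAllDegrees
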